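import Pool.Agent.Lib.SV.H_CORE
import Pool.Agent.Lib.SV.H_BOCH4
import Pool.Agent.Lib.SV.H_MOLL
import Pool.Agent.Lib.SV.H_WAP
import Pool.Agent.Lib.SV.H_RIE
import Pool.Agent.Lib.SV.B_RM
import Pool.Agent.Lib.SV.B_CUT
import Pool.Agent.Lib.SV.B_IBP
import Pool.Agent.Lib.SV.B_SUB
import Pool.Agent.Lib.SV.B_WEI
import Pool.Agent.Lib.SV.B_MON
import Pool.Agent.Lib.SV.B_WEYL

/-! The theorem of Hörmander for a `C^2` weight with the sharp constant. -/

open scoped Classical Topology ENNReal ComplexConjugate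
open Set MeasureTheory Complex Filter Metric

set_option linter.unusedVariables false
set_option linter.unusedSectionVars false

noncomputable section

namespace Pool.Agent.Lib.SV

/-- The theorem of Hörmander for a `C^2` weight with the constant `c`. -/
def St_HORc (c : ℝ≥0∞) : Prop := ∀ (n : ℕ) (D : Dom n) (s : D.Y → ℝ) (G : D.Y → ℂ) (φ h : D.Y → ℝ),
  Exh D.p D.W s → (∀ y ∈ D.W, Sm D.p 2 G y ∧ Psh D.p φ y ∧ 0 ≤ h y ∧
    ∀ v, ‖dbar D.p G y v‖ ^ 2 ≤ h y * lev D.p φ y v) → AEMeasurable h D.μ →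
  ∫⁻ y, ENNReal.ofReal (h y * Real.exp (-φ y)) ∂D.μ ≠ ∞ →
  ∃ F : D.Y → ℂ, (∀ y ∈ D.W, Hol D.p F y) ∧
    ∫⁻ y, ENNReal.ofReal (‖G y - F y‖ ^ 2 * Real.exp (-φ y)) ∂D.μ ≤
      c * ∫⁻ y, ENNReal.ofReal (h y * Real.exp (-φ y)) ∂D.μ

namespace CORE

theorem sq_add_le {τ : ℝ} (hτ : 0 < τ) (x z : ℝ) :
    (x + z) ^ 2 ≤ (1 + τ) * x ^ 2 + (1 + τ⁻¹) * z ^ 2 := by
  have h : (1 + τ) * x ^ 2 + (1 + τ⁻¹) * z ^ 2 - (x + z) ^ 2 = τ⁻¹ * (τ * x - z) ^ 2 := by
    field_simp; ring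
  have := mul_nonneg (inv_pos.2 hτ).le (sq_nonneg (τ * x - z))
  linarith

theorem opt1 {c x M T : ℝ} (hc : 0 ≤ c) (hx : 0 ≤ x) (hM : 0 ≤ M) (hT : 0 ≤ T)
    (h : ∀ s > 0, x ≤ s / 2 * M + 1 / (2 * s) * (c * T)) : x ^ 2 ≤ c * M * T := by
  have := opt (T := c * T / 4) hx hM (by positivity) fun s hs => (h s hs).trans_eq (by ring)
  linarith

theorem le_of_cube {x y : ℝ} (h : ∀ τ > 0, x ≤ (1 + τ) ^ 3 * y) : x ≤ y := by
  have hc : Tendsto (fun τ : ℝ => (1 + τ) ^ 3 * y) (𝓝[>] 0) (𝓝 ((1 + 0) ^ 3 * y)) :=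
    tendsto_nhdsWithin_of_tendsto_nhds (Continuous.tendsto (by fun_prop) 0)
  have := ge_of_tendsto hc (eventually_nhdsWithin_of_forall fun τ hτ => h τ hτ)
  simpa using this

theorem alg1 {n : ℕ} {τ : ℝ} (hτ : 0 < τ) (d a : Fin n → ℂ) (X Z : ℂ) :
    ‖X + ∑ i, d i * a i - Z‖ ^ 2 + (1 / 2) * ∑ j, ∑ k, ‖conj (d j) * a k - conj (d k) * a j‖ ^ 2 ≤
      (1 + τ⁻¹) * ‖Z‖ ^ 2 + (1 + τ) ^ 2 * ‖X‖ ^ 2 +
        ((1 + τ) * (1 + τ⁻¹) + 2 * n ^ 2) * ((∑ i, ‖d i‖) * ∑ i, ‖a i‖) ^ 2 := by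
  set r := ∑ i, ‖d i‖
  set A := ∑ i, ‖a i‖
  have hd : ∀ i, ‖d i‖ ≤ r := fun i =>
    Finset.single_le_sum (f := fun i => ‖d i‖) (fun _ _ => norm_nonneg _) (Finset.mem_univ i)
  have ha : ∀ i, ‖a i‖ ≤ A := fun i =>
    Finset.single_le_sum (f := fun i => ‖a i‖) (fun _ _ => norm_nonneg _) (Finset.mem_univ i)
  have hr : 0 ≤ r := Finset.sum_nonneg fun _ _ => norm_nonneg _
  have h1 : ‖∑ i, d i * a i‖ ≤ r * A := by
    refine (norm_sum_le _ _).trans ?_
    rw [Finset.sum_mul]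
    exact Finset.sum_le_sum fun i _ => by
      rw [norm_mul]; exact mul_le_mul_of_nonneg_left (ha i) (norm_nonneg _)
  have h2 : ∀ j k, ‖conj (d j) * a k‖ ≤ r * A := fun j k => by
    rw [norm_mul, RCLike.norm_conj]
    exact mul_le_mul (hd j) (ha k) (norm_nonneg _) hr
  have h3 : ∑ j, ∑ k, ‖conj (d j) * a k - conj (d k) * a j‖ ^ 2 ≤
      ∑ j : Fin n, ∑ k : Fin n, (2 * (r * A)) ^ 2 :=
    Finset.sum_le_sum fun j _ => Finset.sum_le_sum fun k _ => pow_le_pow_left₀ (norm_nonneg _)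
      ((norm_sub_le _ _).trans (by linarith [h2 j k, h2 k j])) 2
  simp only [Finset.sum_const, Finset.card_univ, Fintype.card_fin, nsmul_eq_mul] at h3
  have h4 : ‖X + ∑ i, d i * a i - Z‖ ≤ ‖X‖ + r * A + ‖Z‖ :=
    (norm_sub_le _ _).trans (by linarith [norm_add_le X (∑ i, d i * a i)])
  have h5 := pow_le_pow_left₀ (norm_nonneg _) h4 2
  have h6 := sq_add_le hτ (‖X‖ + r * A) ‖Z‖
  have h7 := mul_le_mul_of_nonneg_left (sq_add_le hτ ‖X‖ (r * A)) (show 0 ≤ 1 + τ by linarith)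
  nlinarith

variable {n : ℕ} {D : Dom n}

/-- The pointwise bound of the Bochner integrand. -/
theorem bq_le1 {τ : ℝ} (hτ : 0 < τ) {u ψ η : D.Y → ℝ} {y : D.Y} (hu : Sm D.p 2 u y) (hψ : Sm D.p 2 ψ y)
    (hη : Sm D.p 2 η y) (h1 : η y ^ 2 ≤ 1) (a : Fin n → D.Y → ℂ) (δ : D.Y → ℂ) :
    bq D.p (fun x => 2 * u x + ψ x) (fun i y => η y * ex u y * a i y)
      (fun y => η y * ex u y * ex u y * δ y + ∑ i, ex (fun x => -u x) y *
        dz D.p i (fun x => η x * ex u x * ex u x) y * a i y)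
      (fun j k y => ex u y * dzb D.p j (fun x => (η x : ℂ)) y * a k y -
        ex u y * dzb D.p k (fun x => (η x : ℂ)) y * a j y) y ≤
      -((lev D.p (fun x => 2 * u x + ψ x) y (fun i => η y * ex u y * a i y) -
          (1 + τ⁻¹) * grd D.p ψ y (fun i => η y * ex u y * a i y)) / 4 *
          Real.exp (-(2 * u y + ψ y))) +
        (1 + τ) ^ 2 * (‖δ y‖ ^ 2 * Real.exp (2 * u y - ψ y)) + ((1 + τ) * (1 + τ⁻¹) + 2 * n ^ 2) *
          ((∑ i, ‖ex (fun x => -ψ x / 2) y * dz D.p i (fun x => (η x : ℂ)) y‖) * ∑ i, ‖a i y‖) ^ 2 := by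
  have he := (sm_ex hu).one
  have hc := hη.one.ofReal
  have e1 : ∀ i, dz D.p i (ex u) y = ex u y * dz D.p i (fun x => (u x : ℂ)) y :=
    fun i => dz_exp hu.one
  have e2 : ∀ i, dz D.p i (fun x => ((2 * u x + ψ x : ℝ) : ℂ)) y =
      2 * dz D.p i (fun x => (u x : ℂ)) y + dz D.p i (fun x => (ψ x : ℂ)) y := fun i => by
    simp only [ofReal_add, ofReal_mul, ofReal_ofNat]
    rw [dz_add ((sm_const _).mul hu.one.ofReal) hψ.one.ofReal, dz_const_mul _ hu.one.ofReal]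
  set ω := ex (fun x => -ψ x / 2) y with hω
  set S := ex (fun x => -u x) y * ω with hS
  have hN : ∀ z : ℂ, normSq z * Real.exp (-(2 * u y + ψ y)) = ‖S * z‖ ^ 2 := fun z => by
    rw [norm_mul, mul_pow, normSq_eq_norm_sq, mul_comm, hS, hω, ex, ex, ← ofReal_mul, norm_real,
      Real.norm_eq_abs, sq_abs, ← Real.exp_add, ← Real.exp_nat_mul]
    congr 2
    push_cast; ring
  have key := alg1 hτ (fun i => ω * dz D.p i (fun x => (η x : ℂ)) y) (fun i => a i y)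
    (S * (η y * ex u y * ex u y * δ y))
    (S * ∑ i, dz D.p i (fun x => (ψ x : ℂ)) y * (η y * ex u y * a i y))
  have hX : ‖S * (η y * ex u y * ex u y * δ y)‖ ^ 2 ≤ ‖δ y‖ ^ 2 * Real.exp (2 * u y - ψ y) := by
    rw [← hN, normSq_eq_norm_sq, norm_mul, norm_mul, norm_mul, ex, norm_real, norm_real,
      Real.norm_eq_abs, Real.norm_eq_abs, abs_of_pos (Real.exp_pos _)]
    have : Real.exp (2 * u y - ψ y) = Real.exp (u y) ^ 4 * Real.exp (-(2 * u y + ψ y)) := by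
      rw [← Real.exp_nat_mul, ← Real.exp_add]; congr 1; push_cast; ring
    rw [this, mul_pow, mul_pow, mul_pow, sq_abs]
    have : 0 ≤ ‖δ y‖ ^ 2 * (Real.exp (u y) ^ 4 * Real.exp (-(2 * u y + ψ y))) := by positivity
    nlinarith
  have hσ : ∀ j k, S * (ex u y * dzb D.p j (fun x => (η x : ℂ)) y * a k y -
      ex u y * dzb D.p k (fun x => (η x : ℂ)) y * a j y) =
      conj (ω * dz D.p j (fun x => (η x : ℂ)) y) * a k y -
        conj (ω * dz D.p k (fun x => (η x : ℂ)) y) * a j y := fun j k => by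
    rw [dzb_ofReal hη.one, dzb_ofReal hη.one, map_mul, map_mul, hω, conj_ex, ← hω, hS]
    linear_combination ω * (conj (dz D.p j (fun x => (η x : ℂ)) y) * a k y -
      conj (dz D.p k (fun x => (η x : ℂ)) y) * a j y) * ex_mul u y
  have hg : S * (η y * ex u y * ex u y * δ y + ∑ i, ex (fun x => -u x) y *
        dz D.p i (fun x => η x * ex u x * ex u x) y * a i y -
      ∑ j, dz D.p j (fun x => ((2 * u x + ψ x : ℝ) : ℂ)) y * (η y * ex u y * a j y)) =
      S * (η y * ex u y * ex u y * δ y) + ∑ i, ω * dz D.p i (fun x => (η x : ℂ)) y * a i y -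
        S * ∑ i, dz D.p i (fun x => (ψ x : ℂ)) y * (η y * ex u y * a i y) := by
    rw [add_sub_assoc, add_sub_assoc, mul_add, ← Finset.sum_sub_distrib, Finset.mul_sum,
      Finset.mul_sum, ← Finset.sum_sub_distrib]
    congr 1
    refine Finset.sum_congr rfl fun i _ => ?_
    rw [dz_mul (hc.mul he) he, dz_mul hc he, e1, e2, hS]
    have := ex_mul u y
    linear_combination ω * a i y * (dz D.p i (fun x => (η x : ℂ)) y *
      (ex u y * ex (fun x => -u x) y + 1) + 2 * η y * dz D.p i (fun x => (u x : ℂ)) y *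
      (ex u y * ex (fun x => -u x) y)) * this
  have hs : (∑ j, ∑ k, normSq (ex u y * dzb D.p j (fun x => (η x : ℂ)) y * a k y -
      ex u y * dzb D.p k (fun x => (η x : ℂ)) y * a j y)) * Real.exp (-(2 * u y + ψ y)) =
      ∑ j, ∑ k, ‖conj (ω * dz D.p j (fun x => (η x : ℂ)) y) * a k y -
        conj (ω * dz D.p k (fun x => (η x : ℂ)) y) * a j y‖ ^ 2 := by
    simp only [Finset.sum_mul, hN, hσ]
  rw [← hg, ← hs, ← hN, ← hN] at key
  rw [bq, grd_eq hψ.one]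
  have hX' := mul_le_mul_of_nonneg_left hX (sq_nonneg (1 + τ))
  linarith

/-- The estimate with three weights. -/
theorem core_w1 {τ : ℝ} (hτ : 0 < τ) (hRM : St_RM) (hI : St_IBP) (hW : St_WAP) {u ψ h m : D.Y → ℝ} {G : D.Y → ℂ}
    {α : Fin n → D.Y → ℂ} {η : ℕ → D.Y → ℝ} {C : ℝ} (hu : ∀ y ∈ D.W, Sm D.p 2 u y)
    (hψ : ∀ y ∈ D.W, Sm D.p 2 ψ y) (hG : ∀ y ∈ D.W, Sm D.p 2 G y)
    (hq : ∀ y ∈ D.W, 0 ≤ h y ∧ h y * Real.exp (ψ y - 2 * u y) ≤ m y ∧ ∀ v,
      0 ≤ lev D.p (fun x => 2 * u x + ψ x) y v - (1 + τ⁻¹) * grd D.p ψ y v ∧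
      ‖dbar D.p G y v‖ ^ 2 ≤ h y * (lev D.p (fun x => 2 * u x + ψ x) y v - (1 + τ⁻¹) * grd D.p ψ y v))
    (hm : Integrable m D.μ)
    (hf : ∀ j, MemLp (fun y => ex (fun x => -u x) y * dzb D.p j G y) 2 D.μ)
    (hα : ∀ j, Tst D.p D.W 2 (α j)) (hη : ∀ k, Tst D.p D.W 2 (η k)) (h1 : ∀ k y, η k y ^ 2 ≤ 1)
    (h2 : ∀ y ∈ D.W, ∀ᶠ k in atTop, η k =ᶠ[𝓝 y] fun _ => 1)
    (h3 : ∀ k, ∀ y ∈ D.W, ∀ i,
      ‖ex (fun x => -ψ x / 2) y * dz D.p i (fun x => (η k x : ℂ)) y‖ ≤ C) :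
    ‖∫ y, ∑ j, conj (dzb D.p j G y) * α j y ∂D.μ‖ ^ 2 ≤
      (1 + τ) ^ 2 * (∫ y, m y ∂D.μ) * ∫ y, ‖dv D.p α y‖ ^ 2 * Real.exp (2 * u y - ψ y) ∂D.μ := by
  obtain ⟨a, ha, hc, hd, hP⟩ := exists_proj hRM hI hu hG hf hα
  have hδ := Tst.dv D.rd hα
  have hT : Integrable (fun y => ‖dv D.p α y‖ ^ 2 * Real.exp (2 * u y - ψ y)) D.μ := by
    have := ((hδ.zero.mul_right fun y _ => (hδ.cj.sm y).zero).clm reCLM).mul_right
      (g := fun y => Real.exp (2 * u y - ψ y))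
      fun y hy => (((sm_const 2).mul (hu y hy)).sub (hψ y hy)).exp.zero
    refine (this.integrable hRM).congr (Eventually.of_forall fun y => ?_)
    simp only [reCLM_apply, mul_conj, ofReal_re, normSq_eq_norm_sq]
  set A : D.Y → ℝ := fun y => ∑ i, ‖a i y‖ with hA
  have hAL : MemLp A 2 D.μ := memLp_finsetSum _ fun i _ => (ha i).norm
  set r : ℕ → D.Y → ℝ := fun k y =>
    ∑ i, ‖ex (fun x => -ψ x / 2) y * dz D.p i (fun x => (η k x : ℂ)) y‖ with hr
  have hrm : ∀ k, AEStronglyMeasurable (fun y => (r k y * A y) ^ 2) D.μ := fun k => by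
    refine (AEStronglyMeasurable.mul (Finset.aestronglyMeasurable_fun_sum _ fun i _ =>
      AEStronglyMeasurable.norm ?_) hAL.1).pow 2
    refine aesm_of_sm D hRM (k := 0) fun y hy => (sm_ex ?_).mul (((hη k).ofReal.dz D.rd i).sm y).zero
    exact ContDiffAt.div_const (𝕜' := ℝ) (hψ y hy).zero.neg 2
  have hrb : ∀ k, ∀ᵐ y ∂D.μ, ‖(r k y * A y) ^ 2‖ ≤ (n * C) ^ 2 * A y ^ 2 := fun k => by
    filter_upwards [ae_mem D hRM] with y hy
    rw [Real.norm_of_nonneg (sq_nonneg _), mul_pow]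
    refine mul_le_mul_of_nonneg_right (pow_le_pow_left₀
      (Finset.sum_nonneg fun _ _ => norm_nonneg _) ?_ 2) (sq_nonneg _)
    simpa using Finset.sum_le_sum (s := Finset.univ) fun i _ => h3 k y hy i
  have hb := (hAL.integrable_sq).const_mul ((n * C) ^ 2)
  have hri : ∀ k, Integrable (fun y => (r k y * A y) ^ 2) D.μ :=
    fun k => hb.mono' (hrm k) (hrb k)
  have hr0 : Tendsto (fun k => ∫ y, (r k y * A y) ^ 2 ∂D.μ) atTop (𝓝 (∫ _, (0 : ℝ) ∂D.μ)) := by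
    refine tendsto_integral_of_dominated_convergence _ hrm hb hrb ?_
    filter_upwards [ae_mem D hRM] with y hy
    refine tendsto_const_nhds.congr' ?_
    filter_upwards [h2 y hy] with k hk
    have : ∀ i, dz D.p i (fun x => (η k x : ℂ)) y = 0 := fun i => by
      exact (dz_congr (hk.fun_comp ofReal)).trans (dz_const ((1 : ℝ) : ℂ))
    simp [hr, this]
  set P : D.Y → ℂ := fun y => ∑ i, conj (ex (fun x => -u x) y * dzb D.p i G y) * a i y with hPd
  have hPi : Integrable P D.μ :=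
    integrable_finsetSum _ fun i _ => (memLp_conj (hf i)).integrable_mul (ha i)
  have hP0 : Tendsto (fun k => ∫ y, η k y * P y ∂D.μ) atTop (𝓝 (∫ y, P y ∂D.μ)) := by
    refine tendsto_integral_of_dominated_convergence _
      (fun k => ((hη k).ofReal.continuous D.rd).aestronglyMeasurable.mul hPi.1) hPi.norm
      (fun k => Eventually.of_forall fun y => ?_) ?_
    · rw [norm_mul, norm_real, Real.norm_eq_abs]
      exact mul_le_of_le_one_left (norm_nonneg _) ((sq_le_one_iff_abs_le_one _).1 (h1 k y))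
    · filter_upwards [ae_mem D hRM] with y hy
      refine tendsto_const_nhds.congr' ?_
      filter_upwards [h2 y hy] with k hk
      rw [hk.self_of_nhds, ofReal_one, one_mul]
  have hm0 : 0 ≤ᵐ[D.μ] m := by
    filter_upwards [ae_mem D hRM] with y hy
    exact (mul_nonneg (hq y hy).1 (Real.exp_pos _).le).trans (hq y hy).2.1
  rw [← hP]
  refine opt1 (sq_nonneg (1 + τ)) (norm_nonneg _) (integral_nonneg_of_ae hm0)
    (integral_nonneg fun y => by positivity) fun s hs => ?_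
  have hl := (((hr0.const_mul ((1 + τ) * (1 + τ⁻¹) + 2 * (n : ℝ) ^ 2)).const_add
    ((1 + τ) ^ 2 * ∫ y, ‖dv D.p α y‖ ^ 2 * Real.exp (2 * u y - ψ y) ∂D.μ)).const_mul (1 / (2 * s))).const_add
    (s / 2 * ∫ y, m y ∂D.μ)
  rw [integral_zero, mul_zero, add_zero] at hl
  refine le_of_tendsto_of_tendsto' hP0.norm hl fun k => ?_
  obtain ⟨K, hK⟩ := weak_cut hRM hu ha (hδ.memLp hRM 2) hc hd (hη k).ofReal
  obtain ⟨i1, -, i2⟩ := hW n D (fun x => 2 * u x + ψ x) K _ _ _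
    (fun y hy => ((sm_const 2).mul (hu y hy)).add (hψ y hy)) hK
  have j1 := (hT.const_mul ((1 + τ) ^ 2)).add ((hri k).const_mul ((1 + τ) * (1 + τ⁻¹) + 2 * (n : ℝ) ^ 2))
  have j2 := (hm.const_mul (s / 2)).add ((j1.sub i1).const_mul (1 / (2 * s)))
  refine (norm_integral_le_of_norm_le j2 ?_).trans ?_
  · filter_upwards [ae_mem D hRM] with y hy
    obtain ⟨q1, q2, q3⟩ := hq y hy
    have b1 := bq_le1 hτ (hu y hy) (hψ y hy) ((hη k).sm y) (h1 k y) a (dv D.p α)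
    have b2 := amgm (mul_nonneg q1 (Real.exp_pos _).le)
      (mul_nonneg (div_nonneg (q3 _).1 (by norm_num)) (Real.exp_pos _).le) hs
      (pair_sq (ψ := ψ) a (q3 (fun i => η k y * ex u y * a i y)).2)
    refine b2.trans (add_le_add (mul_le_mul_of_nonneg_left q2 (by positivity))
      (mul_le_mul_of_nonneg_left ?_ (by positivity)))
    simp only [Pi.sub_apply, Pi.add_apply, hr, hA]
    linarith
  · rw [integral_add' (hm.const_mul _) ((j1.sub i1).const_mul _), integral_const_mul,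
      integral_const_mul, integral_sub' j1 i1, integral_add' (hT.const_mul _) ((hri k).const_mul _),
      integral_const_mul, integral_const_mul]
    gcongr
    linarith

theorem core_s1 {τ κ : ℝ} (hτ : 0 < τ) (hκ : 2 * κ = 1 + τ⁻¹) (hRM : St_RM) (hI : St_IBP) (hW : St_WAP) {s φ h : D.Y → ℝ} {G : D.Y → ℂ}
    {α : Fin n → D.Y → ℂ} {a B : ℝ} [IsFiniteMeasure D.μ]
    (H : ∀ y ∈ D.W, s y < a ∧ Psh D.p s y ∧ Sm D.p 2 G y ∧ Psh D.p φ y ∧ 0 ≤ h y ∧
      (∀ v, ‖dbar D.p G y v‖ ^ 2 ≤ h y * lev D.p φ y v) ∧ -B ≤ φ y ∧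
      ∀ i, ‖dz D.p i (fun x => (s x : ℂ)) y‖ ≤ B ∧ ‖dzb D.p i G y‖ ≤ B)
    (hc : ∀ b < a, IsCompact {y | y ∈ D.W ∧ s y ≤ b})
    (hm : Integrable (fun y => h y * Real.exp (-φ y)) D.μ) (hα : ∀ j, Tst D.p D.W 2 (α j)) :
    ‖∫ y, ∑ j, conj (dzb D.p j G y) * α j y ∂D.μ‖ ^ 2 ≤
      (1 + τ) ^ 2 * (∫ y, h y * Real.exp (-φ y) ∂D.μ) *
      ∫ y, ‖dv D.p α y‖ ^ 2 * Real.exp (φ y + κ * (a - s y)⁻¹ ^ 2) ∂D.μ := by
  have κ0 : 0 < κ := by have := inv_pos.2 hτ; linarith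
  obtain ⟨L, hL⟩ := exists_lip
  set ψ : D.Y → ℝ := fun y => (a - s y)⁻¹ with hψ
  have p0 : ∀ y ∈ D.W, 0 < ψ y := fun y hy => inv_pos.2 (sub_pos.2 (H y hy).1)
  have ci : ∀ y ∈ D.W, ContDiffAt ℝ 2 (fun t => (a - t)⁻¹) (s y) := fun y hy =>
    (contDiffAt_const.sub contDiffAt_id).inv (sub_pos.2 (H y hy).1).ne'
  have sψ : ∀ y ∈ D.W, Sm D.p 2 ψ y := fun y hy =>
    Sm.comp' (g := fun t => (a - t)⁻¹) (ci y hy) (H y hy).2.1.1
  have lψ : ∀ y ∈ D.W, ∀ v, 0 ≤ lev D.p ψ y v := fun y hy v => by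
    rw [hψ, lev_comp' (D.rd.locH hy) (H y hy).2.1.1 (ci y hy)
      ((eventually_lt_nhds (H y hy).1).mono fun t ht => inv_deriv ht)
      ((inv_deriv (H y hy).1).pow 2)]
    have := p0 y hy
    have := (H y hy).2.1.2 v
    have := grd_nonneg (p := D.p) (f := s) (y := y) v
    positivity
  set u : D.Y → ℝ := fun y => (φ y + ψ y + κ * (ψ y * ψ y)) * (1 / 2) with hu
  have su : ∀ y ∈ D.W, Sm D.p 2 u y := fun y hy =>
    (((H y hy).2.2.2.1.1.add (sψ y hy)).add ((sm_const κ).mul ((sψ y hy).mul (sψ y hy)))).mul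
      (sm_const _)
  have lΦ : ∀ y ∈ D.W, ∀ v, lev D.p φ y v ≤
      lev D.p (fun x => 2 * u x + ψ x) y v - (1 + τ⁻¹) * grd D.p ψ y v := fun y hy v => by
    have ck : ContDiffAt ℝ 2 (fun t : ℝ => 2 * t + κ * t ^ 2) (ψ y) := by fun_prop
    have e : (fun x => 2 * u x + ψ x) = fun x => φ x + (2 * ψ x + κ * ψ x ^ 2) := by
      funext x; simp only [hu]; ring
    rw [e, lev_add (H y hy).2.2.2.1.1 ((sψ y hy).comp' ck), lev_comp' (D.rd.locH hy) (sψ y hy) ck
      (u' := fun t => 2 + κ * (2 * t)) (c := κ * 2) (Eventually.of_forall fun t => by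
        simpa using ((hasDerivAt_id t).const_mul 2).fun_add ((hasDerivAt_pow 2 t).const_mul κ))
      (by simpa using (((hasDerivAt_id (ψ y)).const_mul 2).const_mul κ).const_add 2), ← hκ]
    have := mul_nonneg (show 0 ≤ 2 + κ * (2 * ψ y) by have := p0 y hy; positivity) (lψ y hy v)
    linarith
  set η : ℕ → D.Y → ℝ := fun k y =>
    if y ∈ D.W then Real.smoothTransition (k + 1 - ψ y) else 0 with hη
  have eη : ∀ k, ∀ y ∈ D.W, η k =ᶠ[𝓝 y] fun x => Real.smoothTransition (k + 1 - ψ x) :=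
    fun k y hy => by
      filter_upwards [D.rd.opn.mem_nhds hy] with x hx using if_pos hx
  have sη : ∀ k : ℕ, ∀ y ∈ D.W, Sm D.p 2 (fun x => Real.smoothTransition (k + 1 - ψ x)) y :=
    fun k y hy => ((sm_const _).sub (sψ y hy)).comp' Real.smoothTransition.contDiff.contDiffAt
  have key := core_w1 hτ hRM hI hW (u := u) (ψ := ψ) (h := h) (η := η) (C := 8 * (L * B)) su sψ
    (fun y hy => (H y hy).2.2.1) (fun y hy => ?_) hm (fun j => ?_) hα (fun k => ?_) (fun k y => ?_)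
    (fun y hy => ?_) fun k y hy i => ?_
  · refine key.trans_eq ?_
    congr 2
    funext y
    congr 2
    simp only [hu, hψ]; ring
  · obtain ⟨-, -, -, h1, h2, h3, -⟩ := H y hy
    refine ⟨h2, mul_le_mul_of_nonneg_left (Real.exp_le_exp.2 ?_) h2, fun v =>
      ⟨(h1.2 v).trans (lΦ y hy v), (h3 v).trans (mul_le_mul_of_nonneg_left (lΦ y hy v) h2)⟩⟩
    simp only [hu]
    nlinarith [mul_nonneg κ0.le (mul_self_nonneg (ψ y))]
  · refine MemLp.of_bound (aesm_of_sm D hRM (k := 0) fun y hy =>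
      (sm_ex (su y hy).neg).zero.mul ((H y hy).2.2.1.dzb (D.rd.locH hy) j).zero)
      (Real.exp (B / 2) * B) ?_
    filter_upwards [ae_mem D hRM] with y hy
    rw [norm_mul, ex, norm_real, Real.norm_eq_abs, abs_of_pos (Real.exp_pos _)]
    refine mul_le_mul (Real.exp_le_exp.2 ?_) ((H y hy).2.2.2.2.2.2.2 j).2 (norm_nonneg _)
      (Real.exp_pos _).le
    simp only [hu]
    nlinarith [mul_nonneg κ0.le (mul_self_nonneg (ψ y)), p0 y hy, (H y hy).2.2.2.2.2.2.1]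
  · have hk : (0 : ℝ) < k + 1 := by positivity
    refine ⟨fun y hy => (sη k y hy).congr' (eη k y hy), _,
      hc (a - ((k : ℝ) + 1)⁻¹) (sub_lt_self _ (inv_pos.2 hk)), fun y hy => hy.1, fun y hy => ?_⟩
    simp only [hη]
    split_ifs with hy'
    · refine Real.smoothTransition.zero_of_nonpos (sub_nonpos.2 ?_)
      have h1 : a - s y ≤ (k + 1 : ℝ)⁻¹ := by
        have := not_le.1 fun h => hy ⟨hy', h⟩
        linarith
      exact le_inv_of_le_inv₀ (sub_pos.2 (H y hy').1) h1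
    · rfl
  · simp only [hη]
    split_ifs
    · exact pow_le_one₀ (Real.smoothTransition.nonneg _) (Real.smoothTransition.le_one _)
    · norm_num
  · filter_upwards [tendsto_natCast_atTop_atTop.eventually_ge_atTop (ψ y + 1)] with k hk
    filter_upwards [eη k y hy, ((sψ y hy).continuousAt (D.rd.locH hy)).eventually
      (eventually_lt_nhds (lt_add_one (ψ y)))] with x h1 h2
    rw [h1]
    exact Real.smoothTransition.one_of_one_le (by linarith)
  · have d1 : HasDerivAt (fun t => Real.smoothTransition (k + 1 - t))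
        (deriv Real.smoothTransition (k + 1 - ψ y) * -1) (ψ y) :=
      ((Real.smoothTransition.contDiff (n := 1)).differentiable (by simp) _).hasDerivAt.comp _
        ((hasDerivAt_id (ψ y)).const_sub _)
    have e1 := (dz_congr (p := D.p) (j := i) ((eη k y hy).fun_comp ofReal)).trans
      (dz_comp (sψ y hy).one d1 (sη k y hy).one)
    have e2 : dz D.p i (fun x => (ψ x : ℂ)) y = _ :=
      dz_comp (H y hy).2.1.1.one (inv_deriv (H y hy).1) (sψ y hy).one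
    rw [show dz D.p i (fun x => (η k x : ℂ)) y = _ from e1, e2, norm_mul, norm_mul, norm_mul, ex,
      norm_real, norm_real, norm_real, Real.norm_eq_abs, Real.norm_eq_abs, Real.norm_eq_abs,
      abs_of_pos (Real.exp_pos _), mul_neg_one, abs_neg, abs_of_nonneg (sq_nonneg (a - s y)⁻¹)]
    have b1 := ((H y hy).2.2.2.2.2.2.2 i).1
    have b2 : Real.exp (-ψ y / 2) * ψ y ^ 2 ≤ 8 := by
      have := Real.quadratic_le_exp_of_nonneg (x := ψ y / 2) (by linarith [p0 y hy])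
      rw [neg_div, Real.exp_neg, inv_mul_le_iff₀ (Real.exp_pos _)]
      nlinarith [p0 y hy]
    calc _ = Real.exp (-ψ y / 2) * ψ y ^ 2 * (|deriv Real.smoothTransition (k + 1 - ψ y)| *
          ‖dz D.p i (fun x => (s x : ℂ)) y‖) := by simp only [hψ]; ring
      _ ≤ 8 * (L * B) := mul_le_mul b2 (mul_le_mul (hL _) b1 (norm_nonneg _)
          ((abs_nonneg _).trans (hL 0))) (by positivity) (by norm_num)

end CORE

open CORE

theorem stHOR1_of (hRM : St_RM) (hI : St_IBP) (hW : St_WAP) (hR : St_RIE) : St_HORc 1 := by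
  intro n D s G φ h hs H hh hM
  refine hR n D G φ _ (ENNReal.mul_ne_top (by simp) hM)
    (fun y hy => ⟨(H y hy).1, (H y hy).2.1.1⟩) fun α hα => ?_
  obtain ⟨K, hK, hKW, h0⟩ := Tst.common hα
  have cs := contOn_of_sm D hs.sm
  obtain ⟨b, hb⟩ := hK.exists_bound_of_continuousOn (cs.mono hKW)
  have hd0 : ∀ y ∉ K, dv D.p α y = 0 := fun y hy =>
    Finset.sum_eq_zero fun j _ => dz_off hK (h0 j) hy j
  have hδ := Tst.dv D.rd hα
  have hT : Integrable (fun y => ‖dv D.p α y‖ ^ 2 * Real.exp (φ y)) D.μ := by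
    have := ((hδ.zero.mul_right fun y _ => (hδ.cj.sm y).zero).clm reCLM).mul_right
      (g := fun y => Real.exp (φ y)) fun y hy => (H y hy).2.1.1.exp.zero
    refine (this.integrable hRM).congr (Eventually.of_forall fun y => ?_)
    simp only [reCLM_apply, mul_conj, ofReal_re, normSq_eq_norm_sq]
  have hm0 : 0 ≤ᵐ[D.μ] fun y => h y * Real.exp (-φ y) := by
    filter_upwards [ae_mem D hRM] with y hy using mul_nonneg (H y hy).2.2.1 (Real.exp_pos _).le
  have hm : Integrable (fun y => h y * Real.exp (-φ y)) D.μ :=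
    ⟨hh.aestronglyMeasurable.mul (aesm_of_sm D hRM fun y hy => (H y hy).2.1.1.neg.exp),
      (hasFiniteIntegral_iff_ofReal hm0).2 hM.lt_top⟩
  have k3 : 0 ≤ ∫ y, h y * Real.exp (-φ y) ∂D.μ := integral_nonneg_of_ae hm0
  have k4 : 0 ≤ ∫ y, ‖dv D.p α y‖ ^ 2 * Real.exp (φ y) ∂D.μ :=
    integral_nonneg fun y => by positivity
  rw [one_mul, ← ofReal_integral_eq_lintegral_ofReal hm hm0,
    ← ofReal_integral_eq_lintegral_ofReal hT (Eventually.of_forall fun y => by positivity),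
    ← ENNReal.ofReal_mul k3]
  refine ENNReal.ofReal_le_ofReal (le_of_cube fun τ hτ => ?_)
  set κ := (1 + τ⁻¹) / 2 with hκ
  have κ0 : 0 < κ := by have := inv_pos.2 hτ; positivity
  have l0 : 0 < Real.log (1 + τ) := Real.log_pos (by linarith)
  set c := 1 + κ / Real.log (1 + τ) with hc
  have c1 : 1 ≤ c := le_add_of_nonneg_right (by positivity)
  set a := b + c with ha
  set O := {y | y ∈ D.W ∧ s y < a} with hO
  have ho : IsOpen O := cs.isOpen_inter_preimage D.rd.opn isOpen_Iio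
  have hOW : O ⊆ D.W := fun y hy => hy.1
  have hKb : ∀ y ∈ K, s y ≤ b := fun y hy => (le_abs_self _).trans (hb y hy)
  have hKO : K ⊆ O := fun y hy => ⟨hKW hy, by linarith [hKb y hy]⟩
  have hμ : (sub D O ho hOW).μ = D.μ.restrict O := (hRM n D).2.2.2.2.2.1 O ho hOW
  have cg : ContinuousOn (fun y => ∑ i, (‖dz D.p i (fun x => (s x : ℂ)) y‖ + ‖dzb D.p i G y‖) +
      |φ y|) D.W :=
    (continuousOn_finsetSum _ fun i _ =>
      (contOn_of_sm D fun y hy => (hs.sm y hy).ofReal.dz (D.rd.locH hy) i).norm.add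
      (contOn_of_sm D fun y hy => (H y hy).1.dzb (D.rd.locH hy) i).norm).add
      (contOn_of_sm D fun y hy => (H y hy).2.1.1).abs
  obtain ⟨B, hB⟩ := (hs.cpt a).exists_bound_of_continuousOn (cg.mono fun y hy => hy.1)
  have : IsFiniteMeasure (sub D O ho hOW).μ := ⟨by
    rw [hμ, Measure.restrict_apply_univ]
    exact (measure_mono (t := {y | y ∈ D.W ∧ s y ≤ a}) fun y hy => ⟨hy.1, hy.2.le⟩).trans_lt
      ((hRM n D).2.2.2.2.2.2.1 _ (hs.cpt a) fun y hy => hy.1).lt_top⟩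
  have key := core_s1 (D := sub D O ho hOW) (κ := κ) hτ (by rw [hκ]; ring) hRM hI hW (s := s) (φ := φ) (h := h) (G := G) (α := α)
    (a := a) (B := B) (fun y hy => ?_) (fun c hc => ?_) (by rw [hμ]; exact hm.restrict)
    fun j => ⟨fun y _ => (hα j).sm y, K, hK, hKO, h0 j⟩
  · rw [hμ, setIntegral_eq_integral_of_forall_compl_eq_zero fun y hy =>
      Finset.sum_eq_zero fun j _ => by rw [h0 j y fun h => hy (hKO h), mul_zero]] at key
    have k1 : ∫ y in O, h y * Real.exp (-φ y) ∂D.μ ≤ ∫ y, h y * Real.exp (-φ y) ∂D.μ :=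
      setIntegral_le_integral hm hm0
    have k2 : ∫ y in O, ‖dv D.p α y‖ ^ 2 * Real.exp (φ y + κ * (a - s y)⁻¹ ^ 2) ∂D.μ ≤
        (1 + τ) * ∫ y, ‖dv D.p α y‖ ^ 2 * Real.exp (φ y) ∂D.μ := by
      rw [setIntegral_eq_integral_of_forall_compl_eq_zero fun y hy => by
        rw [hd0 y fun h => hy (hKO h)]; simp, ← integral_const_mul]
      refine integral_mono_of_nonneg (Eventually.of_forall fun y => by positivity) 
        (hT.const_mul (1 + τ))
        (Eventually.of_forall fun y => ?_)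
      by_cases hy : y ∈ K
      · have h1 : (a - s y)⁻¹ ≤ c⁻¹ := inv_anti₀ (by linarith) (by linarith [hKb y hy])
        have h2 : 0 ≤ (a - s y)⁻¹ := inv_nonneg.2 (by linarith [hKb y hy])
        have h5 : c⁻¹ ≤ 1 := inv_le_one_of_one_le₀ c1
        have h6 : κ * c⁻¹ ≤ Real.log (1 + τ) := by
          rw [← div_eq_mul_inv, div_le_iff₀ (by linarith), hc, mul_add, mul_div_cancel₀ _ l0.ne']
          linarith
        have h7 : (a - s y)⁻¹ ^ 2 ≤ c⁻¹ := by nlinarith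
        have h3 : Real.exp (κ * (a - s y)⁻¹ ^ 2) ≤ 1 + τ :=
          (Real.exp_le_exp.2 ((mul_le_mul_of_nonneg_left h7 κ0.le).trans h6)).trans_eq
            (Real.exp_log (by linarith))
        have h4 : 0 ≤ ‖dv D.p α y‖ ^ 2 * Real.exp (φ y) := by positivity
        simp only [Real.exp_add]
        nlinarith
      · simp [hd0 y hy]
    exact key.trans ((mul_le_mul (mul_le_mul_of_nonneg_left k1 (sq_nonneg _)) k2
      (integral_nonneg fun y => by positivity) (by positivity)).trans_eq (by ring))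
  · have h1 := (le_abs_self _).trans (hB y ⟨hy.1, hy.2.le⟩)
    have h2 : ∀ i, ‖dz D.p i (fun x => (s x : ℂ)) y‖ + ‖dzb D.p i G y‖ ≤ _ := fun i =>
      Finset.single_le_sum (f := fun i => ‖dz D.p i (fun x => (s x : ℂ)) y‖ + ‖dzb D.p i G y‖)
        (fun _ _ => by positivity) (Finset.mem_univ i)
    have h3 : 0 ≤ ∑ i, (‖dz D.p i (fun x => (s x : ℂ)) y‖ + ‖dzb D.p i G y‖) :=
      Finset.sum_nonneg fun _ _ => by positivity
    obtain ⟨g1, g2, g3, g4⟩ := H y hy.1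
    refine ⟨hy.2, ⟨hs.sm y hy.1, fun v => ?_⟩, g1, g2, g3, g4, by linarith [neg_abs_le (φ y)],
      fun i => ⟨?_, ?_⟩⟩
    · by_cases hv : v = 0
      · rw [hv, lev_zero]
      · exact (hs.pos y hy.1 v hv).le
    · linarith [h2 i, abs_nonneg (φ y), norm_nonneg (dzb D.p i G y)]
    · linarith [h2 i, abs_nonneg (φ y), norm_nonneg (dz D.p i (fun x => (s x : ℂ)) y)]
  · have : {y | y ∈ O ∧ s y ≤ c} = {y | y ∈ D.W ∧ s y ≤ c} :=
      Set.ext fun y => ⟨fun h => ⟨h.1.1, h.2⟩, fun h => ⟨⟨h.1, h.2.trans_lt hc⟩, h.2⟩⟩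
    exact this ▸ hs.cpt c

/-- The sharp estimate. -/
theorem hor1 : St_HORc 1 :=
  have kI := stIBP stRM stCUT
  stHOR1_of stRM kI (stWAP stRM kI (stBOCH4 stRM kI) (stMOLL stRM stCUT kI))
    (stRIE stRM kI (stWEYL stRM stSUB stWEI stCUT kI (stMON stRM stSUB stWEI)))

end Pool.Agent.Lib.SV
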